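import Mathlib
import Pool.Agent.Results.MP_ff4775_nt.DivergentAsymptotics

set_option autoImplicit false

/-!
# Non-periodic E-sequences with `b_n > n log_2 3` infinitely often are Ω-divergent

If the E-sequence of an odd positive integer `x` is not periodic then the odd terms `x_n` of its
trajectory tend to infinity. A trajectory that tends to infinity is so sparse that `Σ 1/x_n`
converges, hence `2 ^ b_n x_n / 3 ^ n` converges to a nonzero number (starting file
`DivergentAsymptotics`), so that `2 ^ b_n / 3 ^ n` tends to `0`.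
-/

namespace Pool.Agent.Results.MP_eea90e_nt.AboveLineInfinitelyOften

open Filter Topology

/-- The step `x_(n-1) ↦ x_n`: `3 x + 1` divided by the largest power of `2` dividing it. -/
def S (x : ℕ) : ℕ := (3 * x + 1) / 2 ^ padicValNat 2 (3 * x + 1)

/-- The sequence `(a_n)`, `n ≥ 1`, is the E-sequence of `x`: `a_n` is the exponent of `2` in
`3 x_(n-1) + 1`, where `x_n = S^n x`. -/
def IsESeq (a : ℕ → ℕ) (x : ℕ) : Prop := ∀ n, 1 ≤ n → a n = padicValNat 2 (3 * S^[n - 1] x + 1)

/-- The sequence `(a_n)`, `n ≥ 1`, is eventually periodic. -/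
def Periodic (a : ℕ → ℕ) : Prop := ∃ l r : ℕ, 1 ≤ r ∧ ∀ n, l < n → a (n + r) = a n

/-- `b_n = a_1 + ... + a_n` -/
def b (a : ℕ → ℕ) (n : ℕ) : ℕ := ∑ i ∈ Finset.Icc 1 n, a i

/-! ### proofs -/

open Pool.Agent.Results.MP_ff4775_nt.DivergentAsymptotics (T odd)

theorem S_mul (x : ℕ) : 2 ^ padicValNat 2 (3 * x + 1) * S x = 3 * x + 1 :=
  Nat.mul_div_cancel' pow_padicValNat_dvd

theorem S_odd (x : ℕ) : S x % 2 = 1 := by
  have h := Nat.not_dvd_ordCompl Nat.prime_two (n := 3 * x + 1) (by omega)
  rw [Nat.factorization_def _ Nat.prime_two] at h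
  change ¬ 2 ∣ S x at h
  omega

theorem odd_add (k l : ℕ) (n : ℤ) : odd (k + l) n = odd k n + odd l (T^[k] n) := by
  unfold odd
  induction l with
  | zero => simp
  | succ l ih =>
    rw [← Nat.add_assoc, Finset.range_add_one, Finset.filter_insert, Finset.range_add_one,
      Finset.filter_insert]
    have e1 : T^[k + l] n = T^[l] (T^[k] n) := by
      rw [Nat.add_comm, Function.iterate_add_apply]
    rw [e1]
    split_ifs with h
    · rw [Finset.card_insert_of_notMem (by simp), Finset.card_insert_of_notMem (by simp), ih]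
      omega
    · exact ih

theorem halve (j : ℕ) : ∀ z : ℤ, T^[j] (2 ^ j * z) = z ∧ odd j (2 ^ j * z) = 0 := by
  induction j with
  | zero => intro z; simp [odd]
  | succ j ih =>
    intro z
    have e : T (2 ^ (j + 1) * z) = 2 ^ j * z := by
      have e1 : (2 : ℤ) ^ (j + 1) * z = 2 * (2 ^ j * z) := by ring
      unfold T
      rw [e1, if_pos (by omega)]
      omega
    have e2 : (2 : ℤ) ^ (j + 1) * z % 2 = 0 := by
      have e1 : (2 : ℤ) ^ (j + 1) * z = 2 * (2 ^ j * z) := by ring
      omega
    constructor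
    · rw [Function.iterate_succ_apply, e]; exact (ih z).1
    · rw [Nat.add_comm j 1, odd_add, Function.iterate_one]
      rw [Nat.add_comm 1 j, e, (ih z).2]
      have h3 : odd 1 (2 ^ (j + 1) * z) = 0 := by
        unfold odd
        rw [Finset.card_eq_zero, Finset.filter_eq_empty_iff]
        intro i hi
        have : i = 0 := by
          have := Finset.mem_range.1 hi
          omega
        subst this
        rw [Function.iterate_zero, id, e2]
        norm_num
      rw [h3]

theorem syr (y : ℕ) (hy : y % 2 = 1) :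
    T^[padicValNat 2 (3 * y + 1)] (y : ℤ) = (S y : ℤ) ∧ odd (padicValNat 2 (3 * y + 1)) (y : ℤ) = 1 := by
  have h1 := S_mul y
  have hv : 1 ≤ padicValNat 2 (3 * y + 1) :=
    one_le_padicValNat_of_dvd (by omega) (by omega)
  obtain ⟨v, hv'⟩ := Nat.exists_eq_add_of_le hv
  rw [hv'] at h1 ⊢
  have hT : T (y : ℤ) = 2 ^ v * (S y : ℤ) := by
    have h2 : (2 : ℤ) ^ (1 + v) * (S y : ℤ) = 3 * y + 1 := by exact_mod_cast h1
    have h3 : (2 : ℤ) ^ (1 + v) * (S y : ℤ) = 2 * (2 ^ v * (S y : ℤ)) := by ring
    unfold T
    rw [if_neg (by omega)]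
    omega
  obtain ⟨h4, h5⟩ := halve v (S y : ℤ)
  constructor
  · rw [Nat.add_comm, Function.iterate_succ_apply, hT, h4]
  · rw [odd_add, Function.iterate_one, hT, h5]
    have h6 : (y : ℤ) % 2 = 1 := by omega
    have h7 : odd 1 (y : ℤ) = 1 := by
      unfold odd
      rw [Finset.filter_true_of_mem]
      · simp
      · intro i hi
        have : i = 0 := by
          have := Finset.mem_range.1 hi
          omega
        subst this
        rw [Function.iterate_zero, id, h6]
    rw [h7]

theorem iter_odd {x : ℕ} (hx : x % 2 = 1) (n : ℕ) : S^[n] x % 2 = 1 := by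
  cases n with
  | zero => exact hx
  | succ n => rw [Function.iterate_succ_apply']; exact S_odd _

theorem b_succ (a : ℕ → ℕ) (n : ℕ) : b a (n + 1) = b a n + a (n + 1) := by
  unfold b
  rw [Finset.sum_Icc_succ_top (by omega)]

theorem traj {a : ℕ → ℕ} {x : ℕ} (hx : x % 2 = 1) (ha : IsESeq a x) (n : ℕ) :
    T^[b a n] (x : ℤ) = (S^[n] x : ℤ) ∧ odd (b a n) (x : ℤ) = n := by
  induction n with
  | zero => simp [b, odd]
  | succ n ih =>
    obtain ⟨h1, h2⟩ := ih
    obtain ⟨h3, h4⟩ := syr (S^[n] x) (iter_odd hx n)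
    have e : a (n + 1) = padicValNat 2 (3 * S^[n] x + 1) := ha (n + 1) (by omega)
    rw [b_succ, e]
    constructor
    · rw [Nat.add_comm, Function.iterate_add_apply, h1, h3, Function.iterate_succ_apply']
    · rw [odd_add, h1, h2, h4]

theorem inj {a : ℕ → ℕ} {x : ℕ} (ha : IsESeq a x) (hp : ¬ Periodic a) :
    Function.Injective (fun n => S^[n] x) := by
  have key : ∀ i j : ℕ, i < j → S^[i] x = S^[j] x → False := by
    intro i j hij he
    apply hp
    refine ⟨i, j - i, by omega, fun n hn => ?_⟩
    rw [ha n (by omega), ha (n + (j - i)) (by omega)]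
    have e1 : n + (j - i) - 1 = (n - 1 - i) + j := by omega
    have e2 : n - 1 = (n - 1 - i) + i := by omega
    rw [e1, Function.iterate_add_apply, ← he, ← Function.iterate_add_apply, ← e2]
  intro i j he
  by_contra hne
  rcases lt_or_gt_of_ne hne with h | h
  · exact key i j h he
  · exact key j i h he.symm

theorem T_inj {a : ℕ → ℕ} {x : ℕ} (hx : x % 2 = 1) (ha : IsESeq a x) (hp : ¬ Periodic a) :
    Function.Injective (fun n => T^[n] (x : ℤ)) := by
  have key : ∀ i j : ℕ, i < j → T^[i] (x : ℤ) = T^[j] (x : ℤ) → False := by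
    intro i j hij he
    -- the orbit has finite range
    have hfin : (Set.range (fun n => T^[n] (x : ℤ))).Finite := by
      have hsub : Set.range (fun n => T^[n] (x : ℤ)) ⊆
          ((Finset.range j).image (fun n => T^[n] (x : ℤ)) : Finset ℤ) := by
        rintro _ ⟨n, rfl⟩
        induction n using Nat.strong_induction_on with
        | _ n ih =>
          by_cases hn : n < j
          · rw [Finset.coe_image]
            exact ⟨n, by simpa using hn, rfl⟩
          · have e : T^[n] (x : ℤ) = T^[n - (j - i)] (x : ℤ) := by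
              have e1 : n = (n - j) + j := by omega
              have e2 : n - (j - i) = (n - j) + i := by omega
              rw [e2, Function.iterate_add_apply, he, ← Function.iterate_add_apply, ← e1]
            have h1 := ih (n - (j - i)) (by omega)
            simp only at h1 ⊢
            rw [e]
            exact h1
      exact (Finset.finite_toSet _).subset hsub
    have hinj := inj ha hp
    have h1 : (Set.range (fun n => ((S^[n] x : ℕ) : ℤ))).Finite := by
      apply hfin.subset
      rintro _ ⟨n, rfl⟩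
      exact ⟨b a n, (traj hx ha n).1⟩
    have h2 : Function.Injective (fun n => ((S^[n] x : ℕ) : ℤ)) := by
      intro m n hmn
      have hmn' : ((S^[m] x : ℕ) : ℤ) = ((S^[n] x : ℕ) : ℤ) := hmn
      apply hinj
      simp only
      exact_mod_cast hmn'
    exact Set.infinite_range_of_injective h2 h1
  intro i j he
  by_contra hne
  rcases lt_or_gt_of_ne hne with h | h
  · exact key i j h he
  · exact key j i h he.symm

theorem abs_tendsto {f : ℕ → ℤ} (hf : Function.Injective f) : Tendsto (fun k => |f k|) atTop atTop := by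
  rw [tendsto_atTop]
  intro B
  have hfin : {k | |f k| < B}.Finite := by
    apply Set.Finite.subset ((Set.finite_Icc (-B) B).preimage hf.injOn)
    intro k hk
    simp only [Set.mem_preimage, Set.mem_Icc]
    have hk' : |f k| < B := hk
    have := abs_lt.1 hk'
    constructor <;> linarith
  have h1 := hfin.eventually_cofinite_notMem
  rw [Nat.cofinite_eq_atTop] at h1
  filter_upwards [h1] with k hk
  have hk' : ¬ |f k| < B := hk
  exact not_lt.1 hk'

/-- the excess of `n log_2 3` over `b_n` tends to infinity -/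
theorem excess {a : ℕ → ℕ} {x : ℕ} (hx : x % 2 = 1) (ha : IsESeq a x) (hp : ¬ Periodic a) :
    Tendsto (fun n : ℕ => (n : ℝ) * Real.logb 2 3 - b a n) atTop atTop := by
  have hdiv := abs_tendsto (T_inj hx ha hp)
  obtain ⟨h, hη⟩ := Pool.Agent.Results.MP_ff4775_nt.DivergentAsymptotics.result
  obtain ⟨A, hA⟩ := h 0.951 hη (by norm_num)
  obtain ⟨w, hw, hlim, -⟩ := hA x hdiv
  -- along the times `b_n`
  have hx0 : ∀ n, 0 < S^[n] x := fun n => by
    have := iter_odd hx n
    omega
  have hbt : Tendsto (fun n => b a n) atTop atTop := by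
    apply tendsto_atTop_mono (f := fun n => n) _ tendsto_id
    intro n
    induction n with
    | zero => simp
    | succ n ih =>
      rw [b_succ]
      have h1 : 1 ≤ a (n + 1) := by
        rw [ha (n + 1) (by omega)]
        refine one_le_padicValNat_of_dvd (by omega) ?_
        have h2 := iter_odd hx (n + 1 - 1)
        omega
      omega
  have h1 := hlim.comp hbt
  have h2 : Tendsto (fun n : ℕ => (2 : ℝ) ^ b a n * (S^[n] x : ℕ) / 3 ^ n) atTop (𝓝 w) := by
    refine h1.congr (fun n => ?_)
    obtain ⟨e1, e2⟩ := traj hx ha n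
    simp only [Function.comp]
    rw [e1, e2]
    push_cast
    rfl
  have h3 : Tendsto (fun n : ℕ => Real.log ((2 : ℝ) ^ b a n * (S^[n] x : ℕ) / 3 ^ n)) atTop
      (𝓝 (Real.log w)) := (Real.continuousAt_log hw).tendsto.comp h2
  have h4 : Tendsto (fun n : ℕ => Real.log ((S^[n] x : ℕ) : ℝ)) atTop atTop := by
    apply Real.tendsto_log_atTop.comp
    apply tendsto_natCast_atTop_atTop.comp
    have := (inj ha hp).nat_tendsto_atTop
    exact this
  have h5 : Tendsto (fun n : ℕ => Real.log ((S^[n] x : ℕ) : ℝ) -
      Real.log ((2 : ℝ) ^ b a n * (S^[n] x : ℕ) / 3 ^ n)) atTop atTop := by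
    have := h4.atTop_add h3.neg
    refine this.congr (fun n => ?_)
    ring
  have hl2 : 0 < Real.log 2 := Real.log_pos (by norm_num)
  have h6 : Tendsto (fun n : ℕ => (Real.log ((S^[n] x : ℕ) : ℝ) -
      Real.log ((2 : ℝ) ^ b a n * (S^[n] x : ℕ) / 3 ^ n)) / Real.log 2) atTop atTop :=
    h5.atTop_div_const hl2
  refine h6.congr (fun n => ?_)
  have hS : ((S^[n] x : ℕ) : ℝ) ≠ 0 := by
    have := hx0 n
    positivity
  rw [Real.log_div (by positivity) (by positivity), Real.log_mul (by positivity) hS,
    Real.log_pow, Real.log_pow, Real.logb]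
  field_simp
  ring

/-- (1) Let `(a_n)`, `n ≥ 1`, be a sequence of positive integers that is not eventually periodic and
for which `b_n > n log_2 3` for infinitely many `n`. Then `(a_n)` is not the E-sequence of an odd
positive integer.
(2) More precisely, if the E-sequence of an odd positive integer is not eventually periodic, then
`n log_2 3 - b_n` tends to infinity. -/
theorem result :
    (∀ a : ℕ → ℕ, (∀ n, 1 ≤ n → 1 ≤ a n) → ¬ Periodic a →
      (∃ᶠ n : ℕ in atTop, (n : ℝ) * Real.logb 2 3 < b a n) →
      ¬ ∃ x : ℕ, x % 2 = 1 ∧ IsESeq a x) ∧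
    (∀ (a : ℕ → ℕ) (x : ℕ), x % 2 = 1 → IsESeq a x → ¬ Periodic a →
      Tendsto (fun n : ℕ => (n : ℝ) * Real.logb 2 3 - b a n) atTop atTop) := by
  refine ⟨?_, fun a x hx ha hp => excess hx ha hp⟩
  rintro a - hp hfr ⟨x, hx, ha⟩
  have h1 := (excess hx ha hp).eventually_ge_atTop 0
  obtain ⟨n, h2, h3⟩ := (hfr.and_eventually h1).exists
  linarith

end Pool.Agent.Results.MP_eea90e_nt.AboveLineInfinitelyOften
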